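import Mathlib
import Pool.Agent.R325.CubicTwoSquares

/-!
# MP_93e32b_nt: not every irreducible monic cubic becomes a sum of two squares under an
integer-valued quadratic substitution
-/

set_option autoImplicit false

namespace Pool.Agent.Results.MP_93e32b_nt.NotAllCubics

open Polynomial

/-- `q` takes integer values at all integers. -/
def IntegerValued (q : ℚ[X]) : Prop := ∀ n : ℤ, ∃ m : ℤ, q.eval (n : ℚ) = m

/-- There are an integer-valued polynomial `q₀` of degree exactly `2` and polynomials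
`q₁, q₂ ∈ ℚ[X]` with `p(q₀) = q₁² + q₂²` in `ℚ[X]`. -/
def Representable (p : ℤ[X]) : Prop :=
  ∃ q₀ q₁ q₂ : ℚ[X], q₀.natDegree = 2 ∧ IntegerValued q₀ ∧
    (p.map (Int.castRingHom ℚ)).comp q₀ = q₁ ^ 2 + q₂ ^ 2

/-- (1) If `p` is an irreducible monic cubic and `h` is an integer with `2 ∣ p'(h)` and
`p(h) ≡ 3 (mod 4)`, then `p` is not representable.
(2) For every integer `c ≡ 3 (mod 4)` which is not a cube, `X³ + c` is an irreducible monic cubic
which is not representable.
(3) In particular there is an irreducible monic cubic which is not representable. -/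
theorem result :
    (∀ p : ℤ[X], p.Monic → p.natDegree = 3 → Irreducible p →
      (∃ h : ℤ, 2 ∣ p.derivative.eval h ∧ p.eval h % 4 = 3) → ¬ Representable p) ∧
    (∀ c : ℤ, c % 4 = 3 → (∀ m : ℤ, m ^ 3 ≠ c) →
      (X ^ 3 + C c : ℤ[X]).Monic ∧ (X ^ 3 + C c : ℤ[X]).natDegree = 3 ∧
        Irreducible (X ^ 3 + C c : ℤ[X]) ∧ ¬ Representable (X ^ 3 + C c)) ∧
    (∃ p : ℤ[X], p.Monic ∧ p.natDegree = 3 ∧ Irreducible p ∧ ¬ Representable p) := by
  have part1 : ∀ p : ℤ[X], p.Monic → p.natDegree = 3 → Irreducible p →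
      (∃ h : ℤ, 2 ∣ p.derivative.eval h ∧ p.eval h % 4 = 3) → ¬ Representable p := by
    rintro p hm h3 hirr ⟨h, hd, hp⟩ ⟨q₀, q₁, q₂, hq0, hint, H⟩
    refine R325.CubicTwoSquares.no_identity p hm h3 hirr h hd hp q₀ q₁ q₂ hq0 ?_ H
    simpa using hint 0
  have part2 : ∀ c : ℤ, c % 4 = 3 → (∀ m : ℤ, m ^ 3 ≠ c) →
      (X ^ 3 + C c : ℤ[X]).Monic ∧ (X ^ 3 + C c : ℤ[X]).natDegree = 3 ∧
        Irreducible (X ^ 3 + C c : ℤ[X]) ∧ ¬ Representable (X ^ 3 + C c) := by
    intro c hc hcube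
    have hm : (X ^ 3 + C c : ℤ[X]).Monic := by monicity!
    have hn : (X ^ 3 + C c : ℤ[X]).natDegree = 3 := by compute_degree!
    have hirr : Irreducible (X ^ 3 + C c : ℤ[X]) := by
      rw [hm.irreducible_iff_roots_eq_zero_of_degree_le_three (by omega) (by omega)]
      rw [Multiset.eq_zero_iff_forall_notMem]
      intro r hr
      rw [mem_roots hm.ne_zero, IsRoot.def] at hr
      simp at hr
      apply hcube (-r)
      linear_combination -hr
    refine ⟨hm, hn, hirr, part1 _ hm hn hirr ⟨0, ?_, ?_⟩⟩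
    · simp
    · simpa using hc
  refine ⟨part1, part2, ⟨X ^ 3 + C 3, part2 3 (by norm_num) ?_⟩⟩
  intro m hm
  have h1 : m < 2 := by
    by_contra h
    push Not at h
    nlinarith [pow_le_pow_left₀ (by norm_num : (0 : ℤ) ≤ 2) h 3]
  have h2 : 1 < m := by
    by_contra h
    push Not at h
    have h3 : (0 : ℤ) ≤ m ^ 2 + m + 1 := by nlinarith [sq_nonneg (m + 1), sq_nonneg m]
    nlinarith [mul_nonneg (sub_nonneg.2 h) h3]
  omega

end Pool.Agent.Results.MP_93e32b_nt.NotAllCubics
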